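import Mathlib
import Pool.Agent.TH325.SI.Z

set_option autoImplicit false

/-!
# MP_16b0ee_an: the strong Marshall bound with exceptional sets at every scale

Let `h = log ψ'`, `ψ` in the class `Σ`. The integral of the question is bounded, uniformly for all
`R > 1` and all `ψ`, if `(r² - 1) |h'| ≤ β`, `a β² < 1`, holds on every circle `|z| = r` off a set of
angles of measure at most `K (r - 1) ^ b`, `b > a`. For `β = 1` this is the full range `0 < a < 1` of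
the question. In particular this holds for all maps of boundary rotation `O((r - 1) ^ (-κ))`,
`a + κ < 1`. Moreover the integral of the question is bounded by the fractional Sobolev norm of `h`,
for every `ψ` in `Σ`.

The proof. By Goluzin's inequality `|h| ≤ log (r² / (r² - 1))`. Let `u_k(ρ)` be the mean of
`|h|^{2k} / k!` over `|z| = 1/ρ`. The Hardy-Stein identity bounds `u_{k+1}(ρ)` by an integral over
the smaller radii, of `u_k` (where the Bloch bound `β` holds) and of a source (the exceptional set,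
where Goluzin's inequality is used). This recursion is solved exactly, by induction over `k`, and
the sources are weighted by `(1 - t²) ^ (-a)` at most in the sum `∑ c^k u_k`, `c = a / log (R² / (R² - 1))`.
-/

namespace Pool.Agent.Results.MP_16b0ee_an.ExceptionalScales

/-- The point `r e^{iθ}`. -/
noncomputable def circ (r θ : ℝ) : ℂ := (r : ℂ) * Complex.exp ((θ : ℂ) * Complex.I)

/-- `ψ ∈ Σ` and `h = log ψ'` (the branch vanishing at infinity), exactly as in the problem. -/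
def IsSigma (ψ h : ℂ → ℂ) : Prop :=
  DifferentiableOn ℂ ψ {z : ℂ | 1 < ‖z‖} ∧
  Set.InjOn ψ {z : ℂ | 1 < ‖z‖} ∧
  (∃ b : ℂ, Filter.Tendsto (fun z => ψ z - z) (Bornology.cobounded ℂ) (nhds b)) ∧
  DifferentiableOn ℂ h {z : ℂ | 1 < ‖z‖} ∧
  (∀ z : ℂ, 1 < ‖z‖ → Complex.exp (h z) = deriv ψ z) ∧
  Filter.Tendsto h (Bornology.cobounded ℂ) (nhds 0)

/-- The integral of Q1. -/
noncomputable def marshall (a R : ℝ) (h : ℂ → ℂ) : ℝ :=
  (1 / (2 * Real.pi)) * ∫ θ in (0:ℝ)..(2 * Real.pi),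
    Real.exp (a * ‖h (circ R θ)‖ ^ 2 / Real.log (R ^ 2 / (R ^ 2 - 1)))

/-- The angles at which `(r² - 1) |h'|` exceeds `β` on the circle of radius `r`. -/
def badAngles (β : ℝ) (h : ℂ → ℂ) (r : ℝ) : Set ℝ :=
  {θ : ℝ | θ ∈ Set.Ioc 0 (2 * Real.pi) ∧ β < (r ^ 2 - 1) * ‖deriv h (circ r θ)‖}

/-- The boundary rotation `∫_0^{2π} |Re (1 + z ψ''(z) / ψ'(z))| dθ`, `z = r e^{iθ}`. -/
noncomputable def boundaryRotation (ψ : ℂ → ℂ) (r : ℝ) : ℝ :=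
  ∫ θ in (0:ℝ)..(2 * Real.pi),
    |(1 + circ r θ * deriv (deriv ψ) (circ r θ) / deriv ψ (circ r θ)).re|

theorem result :
    (∀ a β b K : ℝ, 0 < a → 0 ≤ β → a * β ^ 2 < 1 → a < b → ∃ C : ℝ, ∀ R : ℝ, 1 < R →
      ∀ ψ h : ℂ → ℂ, IsSigma ψ h →
      (∀ r : ℝ, 1 < r → r < 2 →
        MeasureTheory.volume (badAngles β h r) ≤ ENNReal.ofReal (K * (r - 1) ^ b)) →
      marshall a R h ≤ C) ∧
    (∀ a β τ K : ℝ, 0 < a → 0 ≤ β → a * β ^ 2 < 1 → a + τ < 2 → ∃ C : ℝ, ∀ R : ℝ, 1 < R →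
      ∀ ψ h : ℂ → ℂ, IsSigma ψ h →
      (∀ r : ℝ, 1 < r → r < 2 →
        ∫⁻ θ in badAngles β h r, ENNReal.ofReal (‖deriv h (circ r θ)‖ ^ 2) ≤
          ENNReal.ofReal (K * (r - 1) ^ (-τ))) →
      marshall a R h ≤ C) ∧
    (∀ a κ K : ℝ, 0 < a → 0 ≤ κ → a + κ < 1 → ∃ C : ℝ, ∀ R : ℝ, 1 < R →
      ∀ ψ h : ℂ → ℂ, IsSigma ψ h →
      (∀ r : ℝ, 1 < r → r < 2 → boundaryRotation ψ r ≤ K * (r - 1) ^ (-κ)) →
      marshall a R h ≤ C) ∧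
    (∀ a R : ℝ, 0 < a → a ≤ 1 → 1 < R → R ≤ 2 → ∀ ψ h : ℂ → ℂ, IsSigma ψ h →
      ∀ c : ℕ → ℂ,
      (∀ z : ℂ, 1 < ‖z‖ → HasSum (fun n : ℕ => c n * (z⁻¹) ^ (n + 1)) (h z)) →
      Summable (fun n : ℕ => ((n : ℝ) + 1) ^ a * ‖c n‖ ^ 2 * (R⁻¹) ^ (2 * (n + 1))) ∧
      marshall a R h ≤
        1 + 24 * a * ∑' n : ℕ, ((n : ℝ) + 1) ^ a * ‖c n‖ ^ 2 * (R⁻¹) ^ (2 * (n + 1))) := by
  refine ⟨?_, ?_, ?_, ?_⟩
  · intro a β b K ha hβ haβ hab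
    obtain ⟨C, hC⟩ := Pool.Agent.TH325.SI.thm3 a β b K ha hβ haβ hab
    exact ⟨C, fun R hR ψ h hS hv => hC R hR ψ h hS.1 hS.2.1 hS.2.2.1 hS.2.2.2.1 hS.2.2.2.2.1 hS.2.2.2.2.2 hv⟩
  · intro a β τ K ha hβ haβ haτ
    obtain ⟨C, hC⟩ := Pool.Agent.TH325.SI.thm2 a β τ K ha hβ haβ haτ
    refine ⟨C, fun R hR ψ h hS hv => hC R hR ψ h hS.1 hS.2.1 hS.2.2.1 hS.2.2.2.1 hS.2.2.2.2.1 hS.2.2.2.2.2
      fun r hr1 hr2 => le_trans (le_of_eq ?_) (hv r hr1 hr2)⟩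
    exact Pool.Agent.TH325.SI.exc_eq β h r
  · intro a κ K ha hκ haκ
    obtain ⟨C, hC⟩ := Pool.Agent.TH325.SI.thm4 a κ K ha hκ haκ
    exact ⟨C, fun R hR ψ h hS hV => hC R hR ψ h hS.1 hS.2.1 hS.2.2.1 hS.2.2.2.1 hS.2.2.2.2.1 hS.2.2.2.2.2 hV⟩
  · intro a R ha ha1 hR hR2 ψ h hS c hc
    exact Pool.Agent.TH325.SI.thm1 a R ha ha1 hR hR2 ψ h c hS.1 hS.2.1 hS.2.2.1 hS.2.2.2.1 hS.2.2.2.2.1 hS.2.2.2.2.2 hc

end Pool.Agent.Results.MP_16b0ee_an.ExceptionalScales
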