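import Pool.Agent.TH790.SF.K

set_option autoImplicit false

/-!
# MP_16b0ee_an: the strong Marshall bound under quadratic mean conditions

Let `L = log (R² / (R² - 1))`, and for `e` holomorphic on `|z| > 1` let `g_R(φ)²` be the square of its
Littlewood-Paley-Stein function `g_*` for the circle `|z| = R`,

`g_R(φ)² = (1/π) ∫_{|z| > R} |e'(z)|² log (|z|/R) (|z|² - R²) / |z - R e^(iφ)|² dA(z)`.

1. Let `0 < a`, `0 ≤ B`, `a B < 1`, `0 ≤ A`. The integral of the question is bounded by a constant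
   which depends only on `a`, `B` and `A`, for all `R > 1` and all `ψ` in the class `Σ` such that
   `h = log ψ'` differs on the circle `|z| = R` by at most `A` from a function `e`, `|e(∞)| ≤ A`, whose
   square function satisfies `g_R² ≤ (B/2) L + A` outside of an exceptional set of measure at most
   `A (1 - 1/R²) ^ a`. For `B = 1` this is the full range `0 < a < 1` of the question.
2. The condition holds, without exceptional set, if `(|z|² - 1) |e'(z)| ≤ β(|z|)` for `|z| > R` and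
   `4 ∫_R^∞ log (r/R) r β(r)² / (r² - 1)² dr ≤ B L + 2 A`. For a constant `β` the integral is
   `β² L / 4` (this is also proved). So for all `a < 1` it is enough that the Bloch seminorm of
   `log ψ'` is at most one in the quadratic mean over the scales; for example it may exceed one (in the
   class `Σ` it is at most `6`) in a set of scales of small logarithmic density.

The earlier results on this question ask for a Bloch seminorm at most `β` at every point, with
`a β² < 1`, after the subtraction of a part of finite variation.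

The proof: the mean of `b / (b + g_R²/2) * exp (|e|² / (4b + 2 g_R²))` is at most `1` for all `b > 0`
(entropy duality and Gaussian averages), and on the exceptional set one uses Goluzin's inequality
`|h| ≤ L` for the class `Σ`.
-/

namespace Pool.Agent.Results.MP_16b0ee_an.QuadraticMeanBloch

open Filter Topology MeasureTheory

/-- `f` is holomorphic on `|z| > 1` and tends to `c` at infinity. -/
def HolWithValue (f : ℂ → ℂ) (c : ℂ) : Prop :=
  DifferentiableOn ℂ f {z : ℂ | 1 < ‖z‖} ∧ Tendsto f (Bornology.cobounded ℂ) (𝓝 c)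

/-- `ψ` belongs to `Σ`, and `h` is the branch of `log ψ'` that vanishes at infinity. -/
def InSigma (ψ h : ℂ → ℂ) : Prop :=
  DifferentiableOn ℂ ψ {z : ℂ | 1 < ‖z‖} ∧ Set.InjOn ψ {z : ℂ | 1 < ‖z‖} ∧
    (∃ b : ℂ, Tendsto (fun z => ψ z - z) (Bornology.cobounded ℂ) (𝓝 b)) ∧
    HolWithValue h 0 ∧ ∀ z : ℂ, 1 < ‖z‖ → Complex.exp (h z) = deriv ψ z

/-- The square `g_R(φ)²` of the Littlewood-Paley-Stein function of `h` for the circle `|z| = R` at the
point `R e^(iφ)`:
`(1/π) ∫_{|z| > R} |h'(z)|² log (|z|/R) (|z|² - R²) / |z - R e^(iφ)|² dA(z)`, in polar coordinates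
`z = r e^(iθ)`. -/
noncomputable def gStarSq (h : ℂ → ℂ) (R φ : ℝ) : ℝ :=
  (1 / Real.pi) * ∫ r in Set.Ioi R, Real.log (r / R) * r * ∫ θ in (0 : ℝ)..(2 * Real.pi),
    ‖deriv h (circleMap 0 r θ)‖ ^ 2 *
      ((r ^ 2 - R ^ 2) / ‖circleMap 0 r θ - circleMap 0 R φ‖ ^ 2)

/-- **The strong Marshall bound under quadratic mean conditions.** -/
theorem result :
    (∀ a B A : ℝ, 0 < a → 0 ≤ B → a * B < 1 → 0 ≤ A → ∃ C : ℝ,
      ∀ (R : ℝ) (ψ h e : ℂ → ℂ) (c : ℂ), 1 < R → InSigma ψ h → HolWithValue e c → ‖c‖ ≤ A →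
        (∀ z : ℂ, ‖z‖ = R → ‖h z - e z‖ ≤ A) →
        volume {φ ∈ Set.Ioc (0 : ℝ) (2 * Real.pi) |
          B / 2 * Real.log (R ^ 2 / (R ^ 2 - 1)) + A < gStarSq e R φ} ≤
            ENNReal.ofReal (A * (1 - 1 / R ^ 2) ^ a) →
        (1 / (2 * Real.pi)) * ∫ φ in (0 : ℝ)..(2 * Real.pi),
          Real.exp (a * ‖h ((R : ℂ) * Complex.exp ((φ : ℂ) * Complex.I))‖ ^ 2 /
            Real.log (R ^ 2 / (R ^ 2 - 1))) ≤ C) ∧
    (∀ (e : ℂ → ℂ) (c : ℂ) (R : ℝ) (β : ℝ → ℝ), HolWithValue e c → 1 < R →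
      IntegrableOn (fun r => Real.log (r / R) * r * β r ^ 2 / (r ^ 2 - 1) ^ 2) (Set.Ioi R) →
      (∀ z : ℂ, R < ‖z‖ → (‖z‖ ^ 2 - 1) * ‖deriv e z‖ ≤ β ‖z‖) →
      ∀ φ : ℝ, gStarSq e R φ ≤
        2 * ∫ r in Set.Ioi R, Real.log (r / R) * r * β r ^ 2 / (r ^ 2 - 1) ^ 2) ∧
    (∀ R β : ℝ, 1 < R →
      IntegrableOn (fun r => Real.log (r / R) * r * β ^ 2 / (r ^ 2 - 1) ^ 2) (Set.Ioi R) ∧
      2 * ∫ r in Set.Ioi R, Real.log (r / R) * r * β ^ 2 / (r ^ 2 - 1) ^ 2 =
        β ^ 2 / 2 * Real.log (R ^ 2 / (R ^ 2 - 1))) := by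
  have hpi := Real.pi_pos
  have e0 : ∀ R φ : ℝ, (R : ℂ) * Complex.exp ((φ : ℂ) * Complex.I) = circleMap 0 R φ := fun R φ => by
    simp [circleMap]
  simp only [e0]
  refine ⟨?_, ?_, ?_⟩
  · intro a B A ha hB haB hA
    obtain ⟨C, hC⟩ := TH790.SF.main4 a B A ha hB haB hA
    refine ⟨1 / (2 * Real.pi) * C, fun R ψ h e c hR hS he hc hhe hvol => ?_⟩
    apply mul_le_mul_of_nonneg_left _ (by positivity)
    exact hC R ψ h e c hR hS.1 hS.2.1 hS.2.2.1 hS.2.2.2.1 hS.2.2.2.2 he hc hhe hvol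
  · intro e c R β hh hR hβi hβ φ
    exact TH790.SF.main5 hh hR hβi hβ φ
  · intro R β hR
    have hR0 : 0 < R := by linarith
    have e1 : ∀ s : ℝ, R * Real.exp s * (Real.log (R * Real.exp s / R) * (R * Real.exp s) *
        β ^ 2 / ((R * Real.exp s) ^ 2 - 1) ^ 2) = β ^ 2 * TH790.SF.wt R s := by
      intro s
      unfold TH790.SF.wt
      rw [mul_div_cancel_left₀ _ hR0.ne', Real.log_exp]
      ring
    constructor
    · rw [TH790.SF.polar_int hR0]
      simp only [e1]
      exact (TH790.SF.wt_int hR).const_mul _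
    · rw [TH790.SF.polar hR0]
      simp only [e1]
      rw [integral_const_mul, TH790.SF.wt_integral hR]
      ring

end Pool.Agent.Results.MP_16b0ee_an.QuadraticMeanBloch
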