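import Pool.Agent.TH166.QF.QF8

set_option autoImplicit false

/-!
# MP_16b0ee_an: the strong Marshall bound for maps with a quasiconformal extension

Let `(ψ_l)`, `|l| < 1`, be a Beltrami family: every `ψ_l` belongs to `Σ`, `h_l = log ψ_l'` depends
holomorphically on `l`, `h_0 = 0`, and the derivative of `h_l(z)` in `l` at `l = 0` is the Beurling
transform of a function `μ` on the unit disc with `|μ| ≤ 1`,

`(d/dl) h_l(z) = -(1/π) ∫_{|ζ| < 1} μ(ζ) / (z - ζ)² dA(ζ)` at `l = 0`.

By the measurable Riemann mapping theorem (Ahlfors and Bers; not used in the proof), every `ψ` in `Σ` with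
a `k`-quasiconformal extension to the plane is the member `ψ_k` of such a family: take for `ψ_l` the
normalised solution of the Beltrami equation with the dilatation `(l / k) μ_ψ`.

The theorem: let `0 < k < 1` and let `κ = 4 k (1 + 4 k) / (4 + k)`. If `a κ² < 1`, then the integral of
the question is bounded by a constant which depends only on `a` and `k`, for all `R > 1`, all Beltrami
families and all members `ψ_l` with `|l| ≤ k`. For `k = 41/100` this contains `a = 1` (and a little
more), so that the inequality of the question holds for every `0 < a < 1`, and even for `a = 1`, for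
the maps with a `k`-quasiconformal extension, `k ≤ 41/100`.

Hedenmalm's estimate (2017) gives the range `a k² (1 + 7 k)² < 1`, that is all `a < 1` for `k < 0.313`.

The proof. Let `ρ` be a positive continuous density on the circle with mean `1`, let `e` be the mean of
`ρ log ρ` and let `J(l)` be the mean of `ρ h_l` over the circle `|z| = R`.
1. Entropy. For the harmonic extension `N` of `ρ` to the disc the mean of `ρ log ρ` is the integral of
   `|∇N|² / N` with a logarithmic weight. As `J'(0)` is the integral of `μ` against (essentially) the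
   derivative of `N`, this gives `|J'(0)| ≤ R (L e)^(1/2) + 6`, `L = log (R² / (R² - 1))`. This is a dual
   form of Hedenmalm's sharp theorem on the Bergman projection.
2. For every `ψ` in `Σ` and complex `t` the mean of `exp (Re (conj t h))` is at most `exp (4 |t|² L)`
   (an earlier result on this question), so that `|J(l)| ≤ 4 (L e)^(1/2)` for `|l| < 1`, by Gibbs'
   inequality.
3. `J` is holomorphic and `J(0) = 0`. The Schwarz-Pick lemma for `J(l) / l` gives
   `|J(l)| ≤ κ (R (L e)^(1/2) + 6)` for `|l| ≤ k`.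
4. With `ρ` proportional to `exp (Re (conj t h_l))` one gets the bound
   `exp (6 κ |t| + κ² R² |t|² L / 4)` for the mean of `exp (Re (conj t h_l))`, and then one takes a
   Gaussian average over `t`.
-/

namespace Pool.Agent.Results.MP_16b0ee_an.QuasiconformalFamilies

open Filter Topology MeasureTheory

/-- `f` is holomorphic on `|z| > 1` and tends to `c` at infinity. -/
def HolWithValue (f : ℂ → ℂ) (c : ℂ) : Prop :=
  DifferentiableOn ℂ f {z : ℂ | 1 < ‖z‖} ∧ Tendsto f (Bornology.cobounded ℂ) (𝓝 c)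

/-- `ψ` belongs to `Σ`, and `h` is the branch of `log ψ'` that vanishes at infinity. -/
def InSigma (ψ h : ℂ → ℂ) : Prop :=
  DifferentiableOn ℂ ψ {z : ℂ | 1 < ‖z‖} ∧ Set.InjOn ψ {z : ℂ | 1 < ‖z‖} ∧
    (∃ b : ℂ, Tendsto (fun z => ψ z - z) (Bornology.cobounded ℂ) (𝓝 b)) ∧
    HolWithValue h 0 ∧ ∀ z : ℂ, 1 < ‖z‖ → Complex.exp (h z) = deriv ψ z

/-- The Beurling transform of a function on the unit disc, at a point outside of the disc. -/
noncomputable def beurling (μ : ℂ → ℂ) (z : ℂ) : ℂ :=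
  -(1 / Real.pi) * ∫ ζ in Metric.ball (0 : ℂ) 1, μ ζ / (z - ζ) ^ 2

/-- A Beltrami family: `ψ l` belongs to `Σ` for `|l| < 1`, its `h l = log (ψ l)'` is holomorphic in `l`,
`h 0 = 0`, and the derivative of `h l z` in `l` at `l = 0` is the Beurling transform of a measurable `μ`
with `|μ| ≤ 1`. -/
structure BeltramiFamily (ψ h : ℂ → ℂ → ℂ) (μ : ℂ → ℂ) : Prop where
  inSigma : ∀ l : ℂ, ‖l‖ < 1 → InSigma (ψ l) (h l)
  holomorphic : ∀ z : ℂ, 1 < ‖z‖ → DifferentiableOn ℂ (fun l => h l z) {l : ℂ | ‖l‖ < 1}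
  zero : ∀ z : ℂ, 1 < ‖z‖ → h 0 z = 0
  measurable : Measurable μ
  le_one : ∀ ζ : ℂ, ‖μ ζ‖ ≤ 1
  deriv_zero : ∀ z : ℂ, 1 < ‖z‖ → deriv (fun l => h l z) 0 = beurling μ z

/-- The integral of the question. -/
noncomputable def marshall (a R : ℝ) (h : ℂ → ℂ) : ℝ :=
  (1 / (2 * Real.pi)) * ∫ θ in (0 : ℝ)..(2 * Real.pi),
    Real.exp (a * ‖h ((R : ℂ) * Complex.exp ((θ : ℂ) * Complex.I))‖ ^ 2
      / Real.log (R ^ 2 / (R ^ 2 - 1)))

/-- **The strong Marshall bound for Beltrami families.** -/
theorem result :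
    (∀ k a : ℝ, 0 < k → k < 1 → 0 < a → a * (4 * k * (1 + 4 * k) / (4 + k)) ^ 2 < 1 →
      ∃ C : ℝ, ∀ (ψ h : ℂ → ℂ → ℂ) (μ : ℂ → ℂ) (l : ℂ) (R : ℝ), BeltramiFamily ψ h μ → ‖l‖ ≤ k →
        1 < R → marshall a R (h l) ≤ C) ∧
    (∃ C : ℝ, ∀ (ψ h : ℂ → ℂ → ℂ) (μ : ℂ → ℂ) (l : ℂ) (R a : ℝ), BeltramiFamily ψ h μ →
      ‖l‖ ≤ 41 / 100 → 1 < R → 0 < a → a ≤ 1 → marshall a R (h l) ≤ C) := by
  have key : ∀ k a : ℝ, 0 < k → k < 1 → 0 < a → a * (4 * k * (1 + 4 * k) / (4 + k)) ^ 2 < 1 →
      ∃ C : ℝ, ∀ (ψ h : ℂ → ℂ → ℂ) (μ : ℂ → ℂ) (l : ℂ) (R : ℝ), BeltramiFamily ψ h μ → ‖l‖ ≤ k →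
        1 < R → marshall a R (h l) ≤ C := by
    intro k a hk0 hk1 ha hak
    obtain ⟨C, hC⟩ := TH166.QF.ext_final hk0 hk1 ha (by unfold TH166.QF.kap; exact hak)
    refine ⟨C, fun ψ h μ l R S hl hR => ?_⟩
    have hb : Metric.ball (0 : ℂ) 1 = {l : ℂ | ‖l‖ < 1} := by
      ext x
      simp
    refine hC ψ h μ l R ⟨?_, ?_, ?_, ?_, ?_, ?_, ?_, S.zero, S.measurable, S.le_one, ?_⟩ hl hR
    · exact fun l hl => (S.inSigma l (by simpa using hl)).1
    · exact fun l hl => (S.inSigma l (by simpa using hl)).2.1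
    · exact fun l hl => (S.inSigma l (by simpa using hl)).2.2.1
    · exact fun l hl => (S.inSigma l (by simpa using hl)).2.2.2.1.1
    · exact fun l hl => (S.inSigma l (by simpa using hl)).2.2.2.2
    · exact fun l hl => (S.inSigma l (by simpa using hl)).2.2.2.1.2
    · rw [hb]
      exact S.holomorphic
    · exact S.deriv_zero
  refine ⟨key, ?_⟩
  obtain ⟨C, hC⟩ := key (41 / 100) 1 (by norm_num) (by norm_num) one_pos (by norm_num)
  refine ⟨C, fun ψ h μ l R a S hl hR ha ha1 => ?_⟩
  refine le_trans ?_ (hC ψ h μ l R S hl hR)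
  have hpi := Real.pi_pos
  have hR2 : 0 < R ^ 2 - 1 := by nlinarith
  have hl1 : ‖l‖ < 1 := by linarith
  have hL : 0 < Real.log (R ^ 2 / (R ^ 2 - 1)) := by
    apply Real.log_pos
    rw [one_lt_div hR2]
    linarith
  have hc : Continuous fun θ : ℝ => h l ((R : ℂ) * Complex.exp ((θ : ℂ) * Complex.I)) := by
    apply (S.inSigma l hl1).2.2.2.1.1.continuousOn.comp_continuous (by fun_prop)
    intro θ
    show 1 < ‖(R : ℂ) * Complex.exp ((θ : ℂ) * Complex.I)‖
    rw [norm_mul, Complex.norm_exp_ofReal_mul_I, mul_one, Complex.norm_real,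
      Real.norm_of_nonneg (by linarith)]
    exact hR
  unfold marshall
  apply mul_le_mul_of_nonneg_left _ (by positivity)
  apply intervalIntegral.integral_mono_on (by positivity)
  · exact (Real.continuous_exp.comp
      ((continuous_const.mul (hc.norm.pow 2)).div_const _)).intervalIntegrable _ _
  · exact (Real.continuous_exp.comp
      ((continuous_const.mul (hc.norm.pow 2)).div_const _)).intervalIntegrable _ _
  · intro θ _
    apply Real.exp_le_exp.2
    apply div_le_div_of_nonneg_right _ hL.le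
    exact mul_le_mul_of_nonneg_right ha1 (sq_nonneg _)

end Pool.Agent.Results.MP_16b0ee_an.QuasiconformalFamilies
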