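import Pool.Agent.TH790.SF.K

set_option autoImplicit false

/-!
# MP_16b0ee_an: the strong Marshall bound in terms of the square function of `log ψ'`

Let `h` be holomorphic on `|z| > 1` with `h(∞) = 0`, let `R > 1` and `L = log (R² / (R² - 1))`. Let
`g_R(φ)²` be the square of the Littlewood-Paley-Stein function `g_*` of `h` for the circle `|z| = R`,

`g_R(φ)² = (1/π) ∫_{|z| > R} |h'(z)|² log (|z|/R) (|z|² - R²) / |z - R e^(iφ)|² dA(z)`.

The theorem below says the following.

1. For every such `h` and all `b > 0` the mean of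
   `b / (b + g_R²/2) * exp (|h|² / (4b + 2 g_R²))` over the circle `|z| = R` is at most `1`.
2. If `a B < 1`, then the part of the integral of the question over the set where
   `g_R² ≤ (B/2) L` is at most `1 / (1 - a B)`; here `h` is any function as above.
3. For every `ψ` in the class `Σ`, every `R > 1` and every `ε > 0`, with `h = log ψ'`, the mean of
   `exp (|h|² / (2 g_R² + ε L))` is at most `1 + 36 / ε`. So the inequality of the question holds for
   the whole class `Σ`, if `L / a` is replaced by `2 g_R² + ε L`.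

Part 2 says for `ψ` in `Σ` and `0 < a < 1` that the integral of the question over the set where
`2 g_R² ≤ (1/a - ε) L` is at most `1 / (a ε)`; what remains is the set where the square function is
larger. If `(|z|² - 1) |h'(z)| ≤ β` on `|z| > R`, then `2 g_R² ≤ β² L` everywhere.

The proof. For `N = Re P > 0` on the disc, `P` a polynomial, a comparison of the circle means of
`N log N - N Re F` and an integration of the second derivative in `log |z|` give an entropy inequality;
the term `∫ |z F'|² N` is the pairing of `N` with the square function (Poisson's formula). By duality the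
mean of `exp (Re F - g²/2)` is at most `exp (Re F(0))`. Then one takes `conj t * F` and averages over the
complex `t` with a Gaussian weight. (The inequality is the analytic form of the fact that `g_*²` is the
conditional expectation of the quadratic variation of `Re F` along Brownian motion given its exit point.)
Part 3 uses the bound `(|z|² - 1) |h'| ≤ 6` for the class `Σ`, which is a lemma of the earlier results on
this question.
-/

namespace Pool.Agent.Results.MP_16b0ee_an.SquareFunctionBound

open Filter Topology MeasureTheory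

/-- `f` is holomorphic on `|z| > 1` and tends to `c` at infinity. -/
def HolWithValue (f : ℂ → ℂ) (c : ℂ) : Prop :=
  DifferentiableOn ℂ f {z : ℂ | 1 < ‖z‖} ∧ Tendsto f (Bornology.cobounded ℂ) (𝓝 c)

/-- `ψ` belongs to `Σ`, and `h` is the branch of `log ψ'` that vanishes at infinity. -/
def InSigma (ψ h : ℂ → ℂ) : Prop :=
  DifferentiableOn ℂ ψ {z : ℂ | 1 < ‖z‖} ∧ Set.InjOn ψ {z : ℂ | 1 < ‖z‖} ∧
    (∃ b : ℂ, Tendsto (fun z => ψ z - z) (Bornology.cobounded ℂ) (𝓝 b)) ∧
    HolWithValue h 0 ∧ ∀ z : ℂ, 1 < ‖z‖ → Complex.exp (h z) = deriv ψ z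

/-- The square `g_R(φ)²` of the Littlewood-Paley-Stein function of `h` for the circle `|z| = R` at the
point `R e^(iφ)`:
`(1/π) ∫_{|z| > R} |h'(z)|² log (|z|/R) (|z|² - R²) / |z - R e^(iφ)|² dA(z)`, in polar coordinates
`z = r e^(iθ)`. -/
noncomputable def gStarSq (h : ℂ → ℂ) (R φ : ℝ) : ℝ :=
  (1 / Real.pi) * ∫ r in Set.Ioi R, Real.log (r / R) * r * ∫ θ in (0 : ℝ)..(2 * Real.pi),
    ‖deriv h (circleMap 0 r θ)‖ ^ 2 *
      ((r ^ 2 - R ^ 2) / ‖circleMap 0 r θ - circleMap 0 R φ‖ ^ 2)

/-- **The strong Marshall bound in terms of the square function.** -/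
theorem result :
    -- 1. the self-normalised inequality
    (∀ (h : ℂ → ℂ) (R b : ℝ), HolWithValue h 0 → 1 < R → 0 < b →
      (1 / (2 * Real.pi)) * ∫ φ in (0 : ℝ)..(2 * Real.pi),
        b / (b + gStarSq h R φ / 2) *
          Real.exp (‖h ((R : ℂ) * Complex.exp ((φ : ℂ) * Complex.I))‖ ^ 2 /
            (4 * b + 2 * gStarSq h R φ)) ≤ 1) ∧
    -- 2. the part of the circle where the square function is at most `(B / 2) L`
    (∀ (h : ℂ → ℂ) (R a B : ℝ), HolWithValue h 0 → 1 < R → 0 < a → a * B < 1 →
      (1 / (2 * Real.pi)) * ∫ φ in {φ ∈ Set.Ioc (0 : ℝ) (2 * Real.pi) |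
          gStarSq h R φ ≤ B / 2 * Real.log (R ^ 2 / (R ^ 2 - 1))},
        Real.exp (a * ‖h ((R : ℂ) * Complex.exp ((φ : ℂ) * Complex.I))‖ ^ 2 /
          Real.log (R ^ 2 / (R ^ 2 - 1))) ≤ 1 / (1 - a * B)) ∧
    -- 3. the whole class
    (∀ (ψ h : ℂ → ℂ) (R ε : ℝ), InSigma ψ h → 1 < R → 0 < ε →
      (1 / (2 * Real.pi)) * ∫ φ in (0 : ℝ)..(2 * Real.pi),
        Real.exp (‖h ((R : ℂ) * Complex.exp ((φ : ℂ) * Complex.I))‖ ^ 2 /
          (2 * gStarSq h R φ + ε * Real.log (R ^ 2 / (R ^ 2 - 1)))) ≤ 1 + 36 / ε) := by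
  have hpi := Real.pi_pos
  have e0 : ∀ R φ : ℝ, (R : ℂ) * Complex.exp ((φ : ℂ) * Complex.I) = circleMap 0 R φ := fun R φ => by
    simp [circleMap]
  have key : ∀ {x y : ℝ}, x ≤ 2 * Real.pi * y → 1 / (2 * Real.pi) * x ≤ y := by
    intro x y h
    rw [one_div, inv_mul_le_iff₀ (by positivity)]
    exact h
  simp only [e0]
  refine ⟨?_, ?_, ?_⟩
  · intro h R b hh hR hb
    apply key
    rw [mul_one]
    exact TH790.SF.main1 hh hR hb
  · intro h R a B hh hR ha haB
    apply key
    exact TH790.SF.main2 hh hR ha haB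
  · intro ψ h R ε hS hR hε
    apply key
    apply TH790.SF.main3 hS.2.2.2.1 hR hε (by norm_num)
    intro φ
    have h1 := TH790.SF.main6 hS.2.2.2.1 hR (β := 6)
      (fun z hz => TH790.SF.sigma_bloch hS.1 hS.2.1 hS.2.2.1 hS.2.2.2.1 hS.2.2.2.2 (hR.trans hz)) φ
    norm_num at h1 ⊢
    exact h1

end Pool.Agent.Results.MP_16b0ee_an.SquareFunctionBound
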